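import Mathlib

/-!
# MP_fa793f_nt : linear growth of the average degree of the irreducible factors
-/

set_option autoImplicit false

namespace Pool.Agent.Results.MP_fa793f_nt.AverageDegree

open Polynomial Filter

/-! ### A counting lemma over algebraically closed fields -/

section Closed

variable {K : Type*} [Field K] [IsAlgClosed K]

/-- The preimage of the finite set `S` under `G / H` (for coprime `G`, `H`). -/
noncomputable def pre (G H : K[X]) (S : Finset K) : Finset K :=
  letI := Classical.decEq K
  S.biUnion fun s => (G - C s * H).roots.toFinset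

lemma fib_ne_zero {G H : K[X]} (hc : IsCoprime G H) (hd : 1 ≤ max G.natDegree H.natDegree)
    (s : K) : G - C s * H ≠ 0 := by
  intro h0
  have hG : G = C s * H := sub_eq_zero.mp h0
  have hdvd : H ∣ G := ⟨C s, by rw [hG, mul_comm]⟩
  have hu : IsUnit H := hc.symm.isUnit_of_dvd' dvd_rfl hdvd
  have h1 : H.natDegree = 0 := natDegree_eq_zero_of_isUnit hu
  have h2 : G.natDegree ≤ H.natDegree := by
    rw [hG]; exact natDegree_C_mul_le s H
  omega

lemma mem_pre {G H : K[X]} (hc : IsCoprime G H) (hd : 1 ≤ max G.natDegree H.natDegree)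
    {S : Finset K} {x : K} : x ∈ pre G H S ↔ ∃ s ∈ S, G.eval x = s * H.eval x := by
  classical
  unfold pre
  simp only [Finset.mem_biUnion, Multiset.mem_toFinset]
  refine exists_congr fun s => and_congr_right fun _ => ?_
  rw [mem_roots (fib_ne_zero hc hd s), IsRoot.def]
  simp [sub_eq_zero]

lemma eval_ne_zero_of_coprime {G H : K[X]} (hc : IsCoprime G H) {x : K} (hx : H.eval x = 0) :
    G.eval x ≠ 0 := by
  intro hg
  obtain ⟨a, b, hab⟩ := hc
  have := congrArg (eval x) hab
  simp [hx, hg] at this

/-- The separable case. -/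
lemma sep_case {G H : K[X]} (hc : IsCoprime G H) (hd : 2 ≤ max G.natDegree H.natDegree)
    (hW : derivative G * H - G * derivative H ≠ 0) :
    ∃ B : ℕ, ∀ S : Finset K, 2 * S.card ≤ (pre G H S).card + B := by
  classical
  set W := derivative G * H - G * derivative H with hWdef
  set d := max G.natDegree H.natDegree with hddef
  have hd1 : 1 ≤ max G.natDegree H.natDegree := by omega
  refine ⟨W.natDegree + d, fun S => ?_⟩
  -- at most one `s` has a fibre polynomial of smaller degree
  have hdeg : ∀ s t : K, s ≠ t → (G - C s * H).natDegree < d → d ≤ (G - C t * H).natDegree := by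
    intro s t hst hs
    by_contra ht
    push Not at ht
    have c1 : (G - C s * H).coeff d = 0 := coeff_eq_zero_of_natDegree_lt hs
    have c2 : (G - C t * H).coeff d = 0 := coeff_eq_zero_of_natDegree_lt ht
    simp only [coeff_sub, coeff_C_mul] at c1 c2
    have c3 : (s - t) * H.coeff d = 0 := by linear_combination c2 - c1
    have c4 : H.coeff d = 0 := (mul_eq_zero.mp c3).resolve_left (sub_ne_zero.mpr hst)
    have c5 : G.coeff d = 0 := by rw [c4] at c1; simpa using c1
    rcases le_total G.natDegree H.natDegree with h | h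
    · have : d = H.natDegree := by rw [hddef]; exact max_eq_right h
      rw [this] at c4
      have h0 : H = 0 := leadingCoeff_eq_zero.mp c4
      rw [h0] at this
      simp at this
      omega
    · have : d = G.natDegree := by rw [hddef]; exact max_eq_left h
      rw [this] at c5
      have h0 : G = 0 := leadingCoeff_eq_zero.mp c5
      rw [h0] at this
      simp at this
      omega
  have hsum : d * S.card ≤ (∑ s ∈ S, (G - C s * H).natDegree) + d := by
    by_cases hex : ∃ s ∈ S, (G - C s * H).natDegree < d
    · obtain ⟨s, hs, hsd⟩ := hex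
      rw [← Finset.add_sum_erase S _ hs]
      have h1 : d * (S.erase s).card ≤ ∑ t ∈ S.erase s, (G - C t * H).natDegree := by
        rw [mul_comm, ← smul_eq_mul, ← Finset.sum_const]
        apply Finset.sum_le_sum
        intro t ht
        exact hdeg s t (Finset.ne_of_mem_erase ht).symm hsd
      have h2 : S.card = (S.erase s).card + 1 := (Finset.card_erase_add_one hs).symm
      rw [h2, mul_add]
      omega
    · push Not at hex
      have h1 : d * S.card ≤ ∑ t ∈ S, (G - C t * H).natDegree := by
        rw [mul_comm, ← smul_eq_mul, ← Finset.sum_const]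
        exact Finset.sum_le_sum hex
      omega
  -- multiplicities
  have hmult : ∀ s x : K, (G - C s * H).rootMultiplicity x ≤ 1 + W.rootMultiplicity x := by
    intro s x
    set P := G - C s * H with hP
    have hP0 : P ≠ 0 := fib_ne_zero hc hd1 s
    have hWP : W = derivative P * H - P * derivative H := by
      rw [hWdef, hP]; simp; ring
    set e := P.rootMultiplicity x
    rcases Nat.eq_zero_or_pos e with he | he
    · omega
    · have hdvd : (X - C x) ^ (e - 1) ∣ W := by
        rw [hWP]
        have hPd : (X - C x) ^ e ∣ P := pow_rootMultiplicity_dvd P x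
        apply dvd_sub
        · apply Dvd.dvd.mul_right
          obtain ⟨Q, hQ⟩ := hPd
          rw [hQ, derivative_mul]
          apply dvd_add
          · apply Dvd.dvd.mul_right
            rw [derivative_X_sub_C_pow]
            exact Dvd.intro_left _ rfl
          · exact ((pow_dvd_pow _ (Nat.sub_le e 1))).mul_right _
        · exact ((pow_dvd_pow _ (Nat.sub_le e 1)).trans hPd).mul_right _
      have := (le_rootMultiplicity_iff hW).mpr hdvd
      omega
  have hcount : ∑ s ∈ S, (G - C s * H).natDegree ≤ (pre G H S).card + W.natDegree := by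
    have h1 : ∀ s ∈ S, (G - C s * H).natDegree =
        ∑ x ∈ (G - C s * H).roots.toFinset, (G - C s * H).rootMultiplicity x := by
      intro s _
      have h2 : (G - C s * H).roots.card = (G - C s * H).natDegree :=
        (IsAlgClosed.splits (G - C s * H)).natDegree_eq_card_roots.symm
      rw [← h2, ← Multiset.toFinset_sum_count_eq]
      apply Finset.sum_congr rfl
      intro x _
      rw [count_roots]
    rw [Finset.sum_congr rfl h1]
    have h3 : ∑ s ∈ S, ∑ x ∈ (G - C s * H).roots.toFinset, (G - C s * H).rootMultiplicity x ≤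
        ∑ s ∈ S, ∑ x ∈ (G - C s * H).roots.toFinset, (1 + W.rootMultiplicity x) := by
      apply Finset.sum_le_sum
      intro s _
      exact Finset.sum_le_sum fun x _ => hmult s x
    refine h3.trans ?_
    have hdisj : (S : Set K).PairwiseDisjoint fun s => (G - C s * H).roots.toFinset := by
      intro s _ t _ hst
      rw [Function.onFun, Finset.disjoint_left]
      intro x hx hy
      rw [Multiset.mem_toFinset, mem_roots (fib_ne_zero hc hd1 _), IsRoot.def] at hx hy
      simp only [eval_sub, eval_mul, eval_C] at hx hy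
      have hxy : (s - t) * H.eval x = 0 := by linear_combination hy - hx
      have hH : H.eval x = 0 := (mul_eq_zero.mp hxy).resolve_left (sub_ne_zero.mpr hst)
      apply eval_ne_zero_of_coprime hc hH
      rw [hH] at hx
      simpa using hx
    rw [← Finset.sum_biUnion hdisj]
    change ∑ x ∈ pre G H S, _ ≤ _
    rw [Finset.sum_add_distrib, Finset.sum_const, smul_eq_mul, mul_one]
    apply Nat.add_le_add_left
    calc ∑ x ∈ pre G H S, W.rootMultiplicity x
        ≤ ∑ x ∈ pre G H S ∪ W.roots.toFinset, W.roots.count x := by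
          simp only [count_roots]
          exact Finset.sum_le_sum_of_subset Finset.subset_union_left
      _ = W.roots.card := by
          rw [← Multiset.toFinset_sum_count_eq]
          symm
          apply Finset.sum_subset Finset.subset_union_right
          intro x _ hx
          rw [Multiset.mem_toFinset] at hx
          exact Multiset.count_eq_zero.mpr hx
      _ ≤ W.natDegree := card_roots' W
  calc 2 * S.card ≤ d * S.card := Nat.mul_le_mul_right _ hd
    _ ≤ _ := hsum
    _ ≤ _ := by omega

/-- Either the map `G / H` is injective, or preimages essentially double. -/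
lemma growth (p : ℕ) [Fact p.Prime] [CharP K p] :
    ∀ (d : ℕ) (G H : K[X]), max G.natDegree H.natDegree = d → 1 ≤ d → IsCoprime G H →
      ((∀ s x y : K, G.eval x = s * H.eval x → G.eval y = s * H.eval y → x = y) ∨
        ∃ B : ℕ, ∀ S : Finset K, 2 * S.card ≤ (pre G H S).card + B) := by
  classical
  intro d
  induction d using Nat.strong_induction_on with
  | _ d ih =>
  intro G H hGH hd hc
  by_cases hW : derivative G * H - G * derivative H = 0
  · -- inseparable case
    have hW' : derivative G * H = G * derivative H := sub_eq_zero.mp hW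
    have hder : ∀ P : K[X], P ∣ derivative P → derivative P = 0 := by
      intro P hP
      by_contra h0
      have h1 := natDegree_le_of_dvd hP h0
      have h2 : P.natDegree ≠ 0 := by
        intro h3
        apply h0
        rw [eq_C_of_natDegree_eq_zero h3, derivative_C]
      exact absurd (natDegree_derivative_lt h2) (by omega)
    have hH0 : derivative H = 0 := by
      apply hder
      apply hc.symm.dvd_of_dvd_mul_left
      exact ⟨derivative G, by rw [← hW', mul_comm]⟩
    have hG0 : derivative G = 0 := by
      apply hder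
      apply hc.dvd_of_dvd_mul_right
      exact ⟨derivative H, hW'⟩
    have hp : p.Prime := Fact.out
    have hp0 : p ≠ 0 := hp.ne_zero
    set G0 := contract p G with hG0def
    set H0 := contract p H with hH0def
    have hGe : expand K p G0 = G := expand_contract p hG0 hp0
    have hHe : expand K p H0 = H := expand_contract p hH0 hp0
    have hGd : G.natDegree = G0.natDegree * p := by rw [← hGe, natDegree_expand]
    have hHd : H.natDegree = H0.natDegree * p := by rw [← hHe, natDegree_expand]
    have hmax : max G.natDegree H.natDegree = max G0.natDegree H0.natDegree * p := by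
      rw [hGd, hHd, max_mul_of_nonneg _ _ (Nat.zero_le p)]
    have hc0 : IsCoprime G0 H0 := by
      rw [← isCoprime_expand hp0 (R := K), hGe, hHe]
      exact hc
    have hp2 := hp.two_le
    have hd0 : 1 ≤ max G0.natDegree H0.natDegree := by
      by_contra h
      have h' : max G0.natDegree H0.natDegree = 0 := by omega
      rw [h', zero_mul] at hmax
      omega
    have hlt : max G0.natDegree H0.natDegree < d := by
      rw [← hGH, hmax]
      nlinarith
    have hevG : ∀ x : K, G.eval x = G0.eval (x ^ p) := fun x => by rw [← hGe, expand_eval]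
    have hevH : ∀ x : K, H.eval x = H0.eval (x ^ p) := fun x => by rw [← hHe, expand_eval]
    rcases ih _ hlt G0 H0 rfl hd0 hc0 with hinj | ⟨B, hB⟩
    · left
      intro s x y hx hy
      rw [hevG, hevH] at hx hy
      have := hinj s _ _ hx hy
      exact frobenius_inj K p this
    · right
      refine ⟨B, fun S => (hB S).trans (Nat.add_le_add_right ?_ B)⟩
      have himg : pre G0 H0 S ⊆ (pre G H S).image fun x => x ^ p := by
        intro y hy
        obtain ⟨x, hx⟩ := IsAlgClosed.exists_pow_nat_eq y hp.pos
        rw [Finset.mem_image]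
        refine ⟨x, ?_, hx⟩
        rw [mem_pre hc0 hd0] at hy
        rw [mem_pre hc (by omega)]
        obtain ⟨s, hs, h⟩ := hy
        exact ⟨s, hs, by rw [hevG, hevH, hx, h]⟩
      exact (Finset.card_le_card himg).trans Finset.card_image_le
  · by_cases hd1 : d = 1
    · left
      intro s x y hx hy
      have hP0 : G - C s * H ≠ 0 := fib_ne_zero hc (by omega) s
      have hdeg : (G - C s * H).natDegree ≤ 1 := by
        apply (natDegree_sub_le _ _).trans
        apply max_le
        · omega
        · exact (natDegree_C_mul_le s H).trans (by omega)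
      have hx' : x ∈ (G - C s * H).roots := by
        rw [mem_roots hP0, IsRoot.def]; simp [hx]
      have hy' : y ∈ (G - C s * H).roots := by
        rw [mem_roots hP0, IsRoot.def]; simp [hy]
      have hcard : (G - C s * H).roots.toFinset.card ≤ 1 :=
        (Multiset.toFinset_card_le _).trans ((card_roots' _).trans hdeg)
      exact Finset.card_le_one.mp hcard x (Multiset.mem_toFinset.mpr hx') y
        (Multiset.mem_toFinset.mpr hy')
    · right
      exact sep_case hc (by omega) hW

end Closed

/-! ### Definitions -/

section Defs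

variable {F : Type*} [Field F]

/-- The `R`-transform `f_R = h ^ k * f (g / h)` of `f`, where `k = deg f` and `R = g / h` in lowest
terms. -/
noncomputable def transform (R : RatFunc F) (f : F[X]) : F[X] :=
  ∑ i ∈ Finset.range (f.natDegree + 1),
    C (f.coeff i) * R.num ^ i * R.denom ^ (f.natDegree - i)

/-- The set of distinct monic irreducible factors of the `n`-th iterated transform
`f_R^(n)` (where `f_R^(0) = f` and `f_R^(n) = (f_R^(n-1))_R`). -/
def factors (R : RatFunc F) (f : F[X]) (n : ℕ) : Set F[X] :=
  {p | p.Monic ∧ Irreducible p ∧ p ∣ (transform R)^[n] f}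

/-- `δ_{f,R}(n)`: the sum of the degrees of the distinct irreducible factors of `f_R^(n)`. -/
noncomputable def delta (R : RatFunc F) (f : F[X]) (n : ℕ) : ℕ :=
  ∑ᶠ p ∈ factors R f n, p.natDegree

/-- `A_{f,R}(n)`: the average degree of the distinct irreducible factors of `f_R^(n)`. -/
noncomputable def avg (R : RatFunc F) (f : F[X]) (n : ℕ) : ℝ :=
  (delta R f n : ℝ) / ((factors R f n).ncard : ℝ)

/-- The self-map of the projective line over the algebraic closure given by `R = g / h`. -/
noncomputable def onP1 (R : RatFunc F) :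
    OnePoint (AlgebraicClosure F) → OnePoint (AlgebraicClosure F)
  | none =>
      letI := Classical.propDecidable (R.denom.natDegree < R.num.natDegree)
      if R.denom.natDegree < R.num.natDegree then none
      else some (algebraMap F (AlgebraicClosure F)
        (R.num.coeff R.denom.natDegree / R.denom.leadingCoeff))
  | some z =>
      letI := Classical.propDecidable (aeval z R.denom = 0)
      if aeval z R.denom = 0 then none else some (aeval z R.num / aeval z R.denom)

/-- `α` is `R`-critical: the numbers of distinct `x` in the algebraic closure of `F` with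
`R^(n)(x) = α` are bounded as `n` varies. -/
def Critical (R : RatFunc F) (α : AlgebraicClosure F) : Prop :=
  ∃ B : ℕ, ∀ n : ℕ, {x : AlgebraicClosure F | (onP1 R)^[n] (some x) = some α}.encard ≤ B

end Defs

section Main

variable {F : Type*} [Field F]

/-- numerator over the algebraic closure -/
noncomputable def GG (R : RatFunc F) : (AlgebraicClosure F)[X] :=
  R.num.map (algebraMap F (AlgebraicClosure F))

/-- denominator over the algebraic closure -/
noncomputable def HH (R : RatFunc F) : (AlgebraicClosure F)[X] :=
  R.denom.map (algebraMap F (AlgebraicClosure F))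

lemma cop (R : RatFunc F) : IsCoprime (GG R) (HH R) :=
  (R.isCoprime_num_denom).map (mapRingHom (algebraMap F (AlgebraicClosure F)))

lemma degs (R : RatFunc F) : max (GG R).natDegree (HH R).natDegree =
    max R.num.natDegree R.denom.natDegree := by
  rw [GG, HH, natDegree_map, natDegree_map]

lemma eval_GG (R : RatFunc F) (x : AlgebraicClosure F) : (GG R).eval x = aeval x R.num := by
  rw [GG, eval_map_algebraMap]

lemma eval_HH (R : RatFunc F) (x : AlgebraicClosure F) : (HH R).eval x = aeval x R.denom := by
  rw [HH, eval_map_algebraMap]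

/-- Roots of a polynomial over `F` in the algebraic closure. -/
noncomputable def rts (f : F[X]) : Finset (AlgebraicClosure F) :=
  letI := Classical.decEq (AlgebraicClosure F)
  (f.aroots (AlgebraicClosure F)).toFinset

lemma mem_rts {f : F[X]} (hf : f ≠ 0) {x : AlgebraicClosure F} : x ∈ rts f ↔ aeval x f = 0 := by
  classical
  unfold rts
  rw [Multiset.mem_toFinset, mem_aroots]
  simp [hf]

lemma aeval_transform (R : RatFunc F) {f : F[X]} (hf : f ≠ 0) (x : AlgebraicClosure F) :
    aeval x (transform R f) = 0 ↔ ∃ s ∈ rts f, (GG R).eval x = s * (HH R).eval x := by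
  have hexp : aeval x (transform R f) = ∑ i ∈ Finset.range (f.natDegree + 1),
      algebraMap F (AlgebraicClosure F) (f.coeff i) * (GG R).eval x ^ i *
        (HH R).eval x ^ (f.natDegree - i) := by
    unfold transform
    rw [map_sum]
    apply Finset.sum_congr rfl
    intro i _
    rw [eval_GG, eval_HH]
    simp
  by_cases hh : (HH R).eval x = 0
  · have hg := eval_ne_zero_of_coprime (cop R) hh
    have h1 : aeval x (transform R f) =
        algebraMap F (AlgebraicClosure F) f.leadingCoeff * (GG R).eval x ^ f.natDegree := by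
      rw [hexp, Finset.sum_range_succ, hh]
      simp only [Nat.sub_self, pow_zero, mul_one]
      rw [Finset.sum_eq_zero, zero_add]
      · rfl
      · intro i hi
        rw [Finset.mem_range] at hi
        rw [zero_pow (by omega), mul_zero]
    constructor
    · intro h0
      rw [h1] at h0
      exfalso
      rcases mul_eq_zero.mp h0 with h | h
      · exact hf (leadingCoeff_eq_zero.mp
          ((map_eq_zero_iff _ (algebraMap F (AlgebraicClosure F)).injective).mp h))
      · exact hg (eq_zero_of_pow_eq_zero h)
    · rintro ⟨s, _, hs⟩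
      rw [hh, mul_zero] at hs
      exact absurd hs hg
  · have h1 : aeval x (transform R f) =
        (HH R).eval x ^ f.natDegree * aeval ((GG R).eval x / (HH R).eval x) f := by
      rw [hexp, aeval_eq_sum_range, Finset.mul_sum]
      apply Finset.sum_congr rfl
      intro i hi
      rw [Finset.mem_range] at hi
      have : (HH R).eval x ^ f.natDegree =
          (HH R).eval x ^ i * (HH R).eval x ^ (f.natDegree - i) := by
        rw [← pow_add]; congr 1; omega
      rw [this, Algebra.smul_def, div_pow]
      field_simp
    rw [h1, mul_eq_zero, or_iff_right (pow_ne_zero _ hh)]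
    constructor
    · intro h0
      exact ⟨_, (mem_rts hf).mpr h0, by field_simp⟩
    · rintro ⟨s, hs, hs'⟩
      rw [hs', mul_div_assoc, div_self hh, mul_one]
      exact (mem_rts hf).mp hs

lemma transform_ne_zero (R : RatFunc F) (hR : 1 ≤ max R.num.natDegree R.denom.natDegree)
    {f : F[X]} (hf : f ≠ 0) : transform R f ≠ 0 := by
  intro h0
  have hall : ∀ x : AlgebraicClosure F, x ∈ pre (GG R) (HH R) (rts f) := by
    intro x
    rw [mem_pre (cop R) (by rw [degs]; exact hR), ← aeval_transform R hf, h0, map_zero]
  have : Finite (AlgebraicClosure F) := Set.finite_univ_iff.mp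
    ((pre (GG R) (HH R) (rts f)).finite_toSet.subset fun x _ => hall x)
  exact not_finite (AlgebraicClosure F)

lemma iter_ne_zero (R : RatFunc F) (hR : 1 ≤ max R.num.natDegree R.denom.natDegree)
    {f : F[X]} (hf : f ≠ 0) (n : ℕ) : (transform R)^[n] f ≠ 0 := by
  induction n with
  | zero => exact hf
  | succ n ih => rw [Function.iterate_succ_apply']; exact transform_ne_zero R hR ih

lemma rts_succ (R : RatFunc F) (hR : 1 ≤ max R.num.natDegree R.denom.natDegree)
    {f : F[X]} (hf : f ≠ 0) (n : ℕ) :
    rts ((transform R)^[n + 1] f) = pre (GG R) (HH R) (rts ((transform R)^[n] f)) := by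
  ext x
  rw [mem_rts (iter_ne_zero R hR hf _), Function.iterate_succ_apply',
    aeval_transform R (iter_ne_zero R hR hf n),
    mem_pre (cop R) (by rw [degs]; exact hR)]

lemma growth_main [Finite F] (R : RatFunc F)
    (hR : 1 ≤ max R.num.natDegree R.denom.natDegree) :
    ((∀ s x y : AlgebraicClosure F, (GG R).eval x = s * (HH R).eval x →
        (GG R).eval y = s * (HH R).eval y → x = y) ∨
        ∃ B : ℕ, ∀ S : Finset (AlgebraicClosure F), 2 * S.card ≤ (pre (GG R) (HH R) S).card + B) := by
  obtain ⟨p, hp⟩ := CharP.exists F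
  have := hp
  have hpp : p.Prime := CharP.char_is_prime F p
  have : Fact p.Prime := ⟨hpp⟩
  have : CharP (AlgebraicClosure F) p := charP_of_injective_algebraMap
    (algebraMap F (AlgebraicClosure F)).injective p
  exact growth p _ (GG R) (HH R) rfl (by rw [degs]; exact hR) (cop R)

/-- If the number of roots is unbounded it grows exponentially. -/
lemma exp_growth [Finite F] (R : RatFunc F)
    (hR : 1 ≤ max R.num.natDegree R.denom.natDegree) {f : F[X]} (hf : f ≠ 0)
    (hunb : ∀ B : ℕ, ∃ n, B < (rts ((transform R)^[n] f)).card) :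
    ∃ n0 : ℕ, ∀ n, n0 ≤ n → 2 ^ (n - n0) ≤ (rts ((transform R)^[n] f)).card := by
  rcases growth_main R hR with hinj | ⟨B, hB⟩
  · exfalso
    -- the number of roots is non-increasing
    have hle : ∀ n, (rts ((transform R)^[n + 1] f)).card ≤ (rts ((transform R)^[n] f)).card := by
      intro n
      rw [rts_succ R hR hf]
      classical
      have : pre (GG R) (HH R) (rts ((transform R)^[n] f)) ⊆
          (rts ((transform R)^[n] f)).biUnion fun s => (GG R - C s * HH R).roots.toFinset := by
        intro x hx
        unfold pre at hx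
        convert hx
      refine (Finset.card_le_card this).trans ((Finset.card_biUnion_le).trans ?_)
      rw [Finset.card_eq_sum_ones]
      apply Finset.sum_le_sum
      intro s _
      rw [Finset.card_le_one]
      intro x hx y hy
      rw [Multiset.mem_toFinset, mem_roots (fib_ne_zero (cop R) (by rw [degs]; exact hR) s),
        IsRoot.def] at hx hy
      simp only [eval_sub, eval_mul, eval_C, sub_eq_zero] at hx hy
      exact hinj s x y hx hy
    have hall : ∀ n, (rts ((transform R)^[n] f)).card ≤ (rts f).card := by
      intro n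
      induction n with
      | zero => exact le_refl _
      | succ n ih => exact (hle n).trans ih
    obtain ⟨n, hn⟩ := hunb (rts f).card
    exact absurd (hall n) (by omega)
  · obtain ⟨n0, hn0⟩ := hunb B
    refine ⟨n0, fun n hn => ?_⟩
    obtain ⟨k, rfl⟩ := Nat.exists_eq_add_of_le hn
    rw [Nat.add_sub_cancel_left]
    have : B + 2 ^ k ≤ (rts ((transform R)^[n0 + k] f)).card := by
      clear hn
      induction k with
      | zero => simpa using hn0
      | succ k ih =>
        rw [← add_assoc, rts_succ R hR hf]
        have := hB (rts ((transform R)^[n0 + k] f))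
        rw [pow_succ]
        omega
    omega

lemma mem_factors_minpoly [Finite F] (R : RatFunc F)
    (hR : 1 ≤ max R.num.natDegree R.denom.natDegree) {f : F[X]} (hf : f ≠ 0) (n : ℕ)
    (p : F[X]) : p ∈ factors R f n ↔ ∃ x ∈ rts ((transform R)^[n] f), minpoly F x = p := by
  have hne := iter_ne_zero R hR hf n
  constructor
  · rintro ⟨hm, hirr, hdvd⟩
    obtain ⟨x, hx⟩ := IsAlgClosed.exists_aeval_eq_zero (AlgebraicClosure F) p
      (degree_pos_of_irreducible hirr).ne'
    refine ⟨x, (mem_rts hne).mpr ?_, (minpoly.eq_of_irreducible_of_monic hirr hx hm).symm⟩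
    obtain ⟨q, hq⟩ := hdvd
    rw [hq, map_mul, hx, zero_mul]
  · rintro ⟨x, hx, rfl⟩
    have hint : IsIntegral F x := Algebra.IsIntegral.isIntegral x
    exact ⟨minpoly.monic hint, minpoly.irreducible hint, minpoly.dvd F x ((mem_rts hne).mp hx)⟩

lemma factors_finite [Finite F] (R : RatFunc F)
    (hR : 1 ≤ max R.num.natDegree R.denom.natDegree) {f : F[X]} (hf : f ≠ 0) (n : ℕ) :
    (factors R f n).Finite := by
  apply ((rts ((transform R)^[n] f)).finite_toSet.image (minpoly F)).subset
  intro p hp
  obtain ⟨x, hx, h⟩ := (mem_factors_minpoly R hR hf n p).mp hp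
  exact ⟨x, hx, h⟩

/-- `δ(n)` is the number of roots. -/
lemma delta_eq [Finite F] (R : RatFunc F)
    (hR : 1 ≤ max R.num.natDegree R.denom.natDegree) {f : F[X]} (hf : f ≠ 0) (n : ℕ) :
    delta R f n = (rts ((transform R)^[n] f)).card := by
  classical
  have hfin := factors_finite R hR hf n
  unfold delta
  rw [finsum_mem_eq_finite_toFinset_sum _ hfin]
  have hne := iter_ne_zero R hR hf n
  have h1 : rts ((transform R)^[n] f) = hfin.toFinset.biUnion rts := by
    ext x
    rw [Finset.mem_biUnion]
    constructor
    · intro hx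
      have hp := (mem_factors_minpoly R hR hf n (minpoly F x)).mpr ⟨x, hx, rfl⟩
      exact ⟨_, hfin.mem_toFinset.mpr hp, (mem_rts hp.1.ne_zero).mpr (minpoly.aeval F x)⟩
    · rintro ⟨p, hp, hx⟩
      rw [Set.Finite.mem_toFinset] at hp
      rw [mem_rts hp.1.ne_zero] at hx
      rw [mem_rts hne]
      obtain ⟨q, hq⟩ := hp.2.2
      rw [hq, map_mul, hx, zero_mul]
  rw [h1, Finset.card_biUnion]
  · apply Finset.sum_congr rfl
    intro p hp
    rw [Set.Finite.mem_toFinset] at hp
    have hsep : p.Separable := PerfectField.separable_of_irreducible hp.2.1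
    have hcard := card_rootSet_eq_natDegree (K := AlgebraicClosure F) hsep
      (IsAlgClosed.splits _)
    rw [← hcard, ← Set.toFinset_card]
    congr 1
    ext x
    rw [Set.mem_toFinset, mem_rootSet, mem_rts hp.1.ne_zero]
    simp [hp.1.ne_zero]
  · intro p hp q hq hpq
    rw [Finset.mem_coe, Set.Finite.mem_toFinset] at hp hq
    rw [Function.onFun, Finset.disjoint_left]
    intro x hx hy
    rw [mem_rts hp.1.ne_zero] at hx
    rw [mem_rts hq.1.ne_zero] at hy
    exact hpq ((minpoly.eq_of_irreducible_of_monic hp.2.1 hx hp.1).trans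
      (minpoly.eq_of_irreducible_of_monic hq.2.1 hy hq.1).symm)

/-- The basic counting inequality: few irreducible polynomials have small degree. -/
lemma counting [Finite F] (R : RatFunc F)
    (hR : 1 ≤ max R.num.natDegree R.denom.natDegree) {f : F[X]} (hf : f ≠ 0) (n k : ℕ) :
    k * (factors R f n).ncard ≤ k * (Nat.card F) ^ k + delta R f n := by
  classical
  have hfin := factors_finite R hR hf n
  have := Fintype.ofFinite F
  rw [Set.ncard_eq_toFinset_card _ hfin]
  unfold delta
  rw [finsum_mem_eq_finite_toFinset_sum _ hfin]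
  set S := hfin.toFinset with hS
  rw [← Finset.card_filter_add_card_filter_not (s := S) (fun p => p.natDegree < k), mul_add]
  apply add_le_add
  · apply Nat.mul_le_mul_left
    have hinj : Set.InjOn (fun (p : F[X]) (i : Fin k) => p.coeff i)
        (S.filter fun p => p.natDegree < k : Finset F[X]) := by
      intro p hp q hq hpq
      rw [Finset.mem_coe, Finset.mem_filter] at hp hq
      ext i
      by_cases hi : i < k
      · exact congrFun hpq ⟨i, hi⟩
      · rw [coeff_eq_zero_of_natDegree_lt (by omega), coeff_eq_zero_of_natDegree_lt (by omega)]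
    have := Finset.card_le_card_of_injOn (t := (Finset.univ : Finset (Fin k → F)))
      (fun (p : F[X]) (i : Fin k) => p.coeff i) (fun _ _ => Finset.mem_univ _) hinj
    rw [Finset.card_univ, Fintype.card_fun, Fintype.card_fin] at this
    rwa [Nat.card_eq_fintype_card]
  · calc k * (S.filter fun p => ¬ p.natDegree < k).card
        = ∑ p ∈ S.filter (fun p => ¬ p.natDegree < k), k := by
          rw [Finset.sum_const, smul_eq_mul, mul_comm]
      _ ≤ ∑ p ∈ S.filter (fun p => ¬ p.natDegree < k), p.natDegree := by
          apply Finset.sum_le_sum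
          intro p hp
          rw [Finset.mem_filter] at hp
          omega
      _ ≤ ∑ p ∈ S, p.natDegree := Finset.sum_le_sum_of_subset (Finset.filter_subset _ _)

/-- Linear growth of the average degree if the number of roots is unbounded. -/
lemma main_growth [Finite F] (R : RatFunc F)
    (hR : 1 ≤ max R.num.natDegree R.denom.natDegree) {f : F[X]} (hf : f ≠ 0)
    (hunb : ∀ B : ℕ, ∃ n, B < delta R f n) :
    ∃ c : ℝ, 0 < c ∧ ∀ᶠ n : ℕ in atTop, (n : ℝ) ≤ c * avg R f n := by
  obtain ⟨n0, hn0⟩ := exp_growth R hR hf (by
    intro B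
    obtain ⟨n, hn⟩ := hunb B
    exact ⟨n, by rwa [delta_eq R hR hf] at hn⟩)
  set q := Nat.card F with hq
  obtain ⟨m, hq2⟩ : ∃ m : ℕ, q ≤ 2 ^ m := ⟨q, (Nat.lt_two_pow_self).le⟩
  -- `k * q ^ k ≤ 2 ^ ((m + 1) * k)`
  have hk : ∀ k : ℕ, k * q ^ k ≤ 2 ^ ((m + 1) * k) := by
    intro k
    calc k * q ^ k ≤ 2 ^ k * (2 ^ m) ^ k :=
          Nat.mul_le_mul (Nat.lt_two_pow_self).le (Nat.pow_le_pow_left hq2 k)
      _ = 2 ^ ((m + 1) * k) := by rw [← pow_mul, ← pow_add]; congr 1; ring
  refine ⟨8 * (m + 1), by positivity, ?_⟩
  filter_upwards [eventually_ge_atTop (2 * n0 + 4 * (m + 1))] with n hn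
  set k := n / (2 * (m + 1)) with hkdef
  have hk1 : (m + 1) * k ≤ n - n0 := by
    have : 2 * (m + 1) * k ≤ n := Nat.mul_div_le n (2 * (m + 1))
    have h2 : 2 * ((m + 1) * k) ≤ n := by linarith
    omega
  have hk2 : n ≤ 4 * (m + 1) * k := by
    have h1 : n < 2 * (m + 1) * (k + 1) := Nat.lt_mul_div_succ n (by positivity)
    have h2 : 1 ≤ k := by
      rw [hkdef, Nat.le_div_iff_mul_le (by positivity)]
      linarith
    nlinarith
  have hδ : k * q ^ k ≤ delta R f n := by
    rw [delta_eq R hR hf]
    exact ((hk k).trans (Nat.pow_le_pow_right (by norm_num) hk1)).trans (hn0 n (by omega))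
  have hcount := counting R hR hf n k
  have hmain : k * (factors R f n).ncard ≤ 2 * delta R f n := by
    rw [← hq] at hcount
    omega
  have hδpos : 0 < delta R f n := by
    rw [delta_eq R hR hf]
    exact lt_of_lt_of_le (by positivity) (hn0 n (by omega))
  have hNpos : 0 < (factors R f n).ncard := by
    rw [Set.ncard_pos (factors_finite R hR hf n)]
    by_contra hne
    rw [Set.not_nonempty_iff_eq_empty] at hne
    unfold delta at hδpos
    rw [hne] at hδpos
    simp at hδpos
  have hNpos' : (0 : ℝ) < (factors R f n).ncard := by exact_mod_cast hNpos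
  unfold avg
  rw [← mul_div_assoc, le_div_iff₀ hNpos']
  have h1 : (n : ℝ) ≤ 4 * (m + 1) * k := by exact_mod_cast hk2
  have h2 : (k : ℝ) * (factors R f n).ncard ≤ 2 * delta R f n := by exact_mod_cast hmain
  calc (n : ℝ) * (factors R f n).ncard ≤ (4 * (m + 1) * k) * (factors R f n).ncard :=
        mul_le_mul_of_nonneg_right h1 hNpos'.le
    _ = 4 * (m + 1) * (k * (factors R f n).ncard) := by ring
    _ ≤ 4 * (m + 1) * (2 * delta R f n) := by
        apply mul_le_mul_of_nonneg_left h2; positivity
    _ = 8 * (m + 1) * delta R f n := by ring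

lemma onP1_none_some (R : RatFunc F) (z : AlgebraicClosure F) :
    (aeval z R.denom = 0 ∧ onP1 R (some z) = none) ∨
      (aeval z R.denom ≠ 0 ∧ onP1 R (some z) = some (aeval z R.num / aeval z R.denom)) := by
  by_cases h : aeval z R.denom = 0
  · left; exact ⟨h, by simp [onP1, h]⟩
  · right; exact ⟨h, by simp [onP1, h]⟩

/-- Backward orbits that avoid infinity consist of roots of the transforms. -/
lemma mem_rts_of_iterate [Finite F] (R : RatFunc F)
    (hR : 1 ≤ max R.num.natDegree R.denom.natDegree) {f : F[X]} (hf : f ≠ 0)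
    {α : AlgebraicClosure F} (hα : aeval α f = 0)
    (horb : ∀ k : ℕ, 1 ≤ k → (onP1 R)^[k] none ≠ some α) (n : ℕ) :
    ∀ x : AlgebraicClosure F, (onP1 R)^[n] (some x) = some α →
      x ∈ rts ((transform R)^[n] f) := by
  induction n with
  | zero =>
    intro x hx
    have : x = α := Option.some.inj hx
    rw [this]
    exact (mem_rts hf).mpr hα
  | succ n ih =>
    intro x hx
    rw [Function.iterate_succ_apply] at hx
    rcases onP1_none_some R x with ⟨_, h⟩ | ⟨h0, h⟩
    · rw [h] at hx
      rcases Nat.eq_zero_or_pos n with rfl | hn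
      · exact absurd hx (by simp)
      · exact absurd hx (horb n hn)
    · rw [h] at hx
      have := ih _ hx
      rw [rts_succ R hR hf, mem_pre (cop R) (by rw [degs]; exact hR)]
      refine ⟨_, this, ?_⟩
      rw [eval_GG, eval_HH]
      field_simp

end Main

/-! ### A degenerate example -/

section Example

lemma num_denom_div {F : Type*} [Field F] {p q : F[X]} (hq : q.Monic) (hc : IsCoprime p q) :
    (algebraMap F[X] (RatFunc F) p / algebraMap F[X] (RatFunc F) q).num = p ∧
      (algebraMap F[X] (RatFunc F) p / algebraMap F[X] (RatFunc F) q).denom = q := by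
  classical
  have hu : IsUnit (gcd p q) := (gcd_isUnit_iff _ _).mpr hc
  have h1 : gcd p q = 1 := by rw [← normalize_gcd, normalize_eq_one.mpr hu]
  constructor
  · rw [RatFunc.num_div]
    have h2 := h1
    rw [show q / gcd p q = q by rw [h1, EuclideanDomain.div_one],
      show p / gcd p q = p by rw [h1, EuclideanDomain.div_one], hq.leadingCoeff]
    simp
  · rw [RatFunc.denom_div _ hq.ne_zero]
    rw [show q / gcd p q = q by rw [h1, EuclideanDomain.div_one], hq.leadingCoeff]
    simp

/-- `2 x / (x ^ 2 + 1)` over the field with three elements. -/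
noncomputable def R0 : RatFunc (ZMod 3) :=
  algebraMap (ZMod 3)[X] (RatFunc (ZMod 3)) (C 2 * X) /
    algebraMap (ZMod 3)[X] (RatFunc (ZMod 3)) (X ^ 2 + 1)

lemma R0_eq : R0 = 2 * RatFunc.X / (RatFunc.X ^ 2 + 1) := by
  rw [R0, map_mul, map_add, map_pow, RatFunc.algebraMap_X, RatFunc.algebraMap_C, map_one,
    map_ofNat]

lemma monic_den : (X ^ 2 + 1 : (ZMod 3)[X]).Monic := by
  have := monic_X_pow_add_C (R := ZMod 3) 1 (n := 2) (by norm_num)
  simpa using this

lemma cop0 : IsCoprime (C 2 * X : (ZMod 3)[X]) (X ^ 2 + 1) := by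
  refine ⟨-(C 2 * X), 1, ?_⟩
  have h4 : (C 2 * C 2 : (ZMod 3)[X]) = 1 := by
    rw [← C_mul]
    have : (2 * 2 : ZMod 3) = 1 := by decide
    rw [this, C_1]
  linear_combination (-X ^ 2) * h4

lemma num0 : R0.num = C 2 * X := (num_denom_div monic_den cop0).1

lemma den0 : R0.denom = X ^ 2 + 1 := (num_denom_div monic_den cop0).2

lemma two_ne : (2 : ZMod 3) ≠ 0 := by decide

/-- The closure of the field with three elements. -/
abbrev K3 := AlgebraicClosure (ZMod 3)

lemma two_ne' : (2 : K3) ≠ 0 := by
  intro h
  have : algebraMap (ZMod 3) K3 2 = 0 := by rw [map_ofNat]; exact h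
  exact two_ne ((map_eq_zero_iff _ (algebraMap (ZMod 3) K3).injective).mp this)

lemma onP1_R0 (x : K3) : onP1 R0 (some x) =
    (letI := Classical.propDecidable (x ^ 2 + 1 = 0)
     if x ^ 2 + 1 = 0 then none else some (2 * x / (x ^ 2 + 1))) := by
  have e1 : aeval x R0.denom = x ^ 2 + 1 := by rw [den0]; simp
  have e2 : aeval x R0.num = 2 * x := by
    rw [num0, map_mul, aeval_C, aeval_X, map_ofNat]
  by_cases h : x ^ 2 + 1 = 0
  · have h' : aeval x R0.denom = 0 := by rw [e1, h]
    simp [onP1, h', h]
  · have h' : aeval x R0.denom ≠ 0 := by rw [e1]; exact h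
    simp only [onP1, if_neg h', if_neg h, e1, e2]

lemma onP1_R0_inf : onP1 R0 none = some 0 := by
  have h1 : R0.denom.natDegree = 2 := by rw [den0]; compute_degree!
  have h2 : R0.num.natDegree = 1 := by
    rw [num0, natDegree_C_mul two_ne, natDegree_X]
  have h3 : R0.num.coeff 2 = 0 := coeff_eq_zero_of_natDegree_lt (by omega)
  simp only [onP1, h1, h2, h3]
  simp

/-- The change of coordinate `z ↦ (z - 1) / (z + 1)`. -/
noncomputable def mu (z : K3) : OnePoint K3 :=
  letI := Classical.propDecidable (z = -1)
  if z = -1 then none else some ((z - 1) / (z + 1))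

lemma onP1_mu (z : K3) : onP1 R0 (mu z) = mu (z ^ 2) := by
  have h2 := two_ne'
  by_cases hz : z = -1
  · subst hz
    have h1 : (-1 : K3) ^ 2 ≠ -1 := by
      intro h
      apply h2
      linear_combination h
    simp only [mu, if_true, if_neg h1, onP1_R0_inf]
    congr 1
    simp
  · have hz' : z + 1 ≠ 0 := fun h => hz (eq_neg_of_add_eq_zero_left h)
    have e : ((z - 1) / (z + 1)) ^ 2 + 1 = 2 * (z ^ 2 + 1) / (z + 1) ^ 2 := by
      field_simp; ring
    by_cases hz2 : z ^ 2 = -1
    · have h0 : ((z - 1) / (z + 1)) ^ 2 + 1 = 0 := by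
        rw [e, hz2]; simp
      simp only [mu, if_neg hz, onP1_R0, if_pos h0, if_pos hz2]
    · have hz3 : z ^ 2 + 1 ≠ 0 := fun h => hz2 (eq_neg_of_add_eq_zero_left h)
      have h0 : ((z - 1) / (z + 1)) ^ 2 + 1 ≠ 0 := by
        rw [e]
        exact div_ne_zero (mul_ne_zero h2 hz3) (pow_ne_zero _ hz')
      simp only [mu, if_neg hz, onP1_R0, if_neg h0, if_neg hz2]
      congr 1
      rw [e]
      field_simp
      ring

lemma onP1_mu_iter (n : ℕ) (z : K3) : (onP1 R0)^[n] (mu z) = mu (z ^ 2 ^ n) := by
  induction n with
  | zero => simp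
  | succ n ih => rw [Function.iterate_succ_apply', ih, onP1_mu, ← pow_mul, pow_succ]

lemma mu_one : mu (1 : K3) = some 0 := by
  have h : (1 : K3) ≠ -1 := by
    intro h
    apply two_ne'
    linear_combination h
  simp [mu, h]

lemma not_critical : ¬ Critical R0 0 := by
  classical
  rintro ⟨B, hB⟩
  have : NeZero (2 : K3) := ⟨two_ne'⟩
  obtain ⟨ζ, hζ⟩ := HasEnoughRootsOfUnity.exists_primitiveRoot K3 (2 ^ (B + 1))
  set T : Finset K3 := (nthRootsFinset (2 ^ (B + 1)) (1 : K3)).erase (-1) with hT
  set U : Finset K3 := T.image fun z => (z - 1) / (z + 1) with hU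
  have hsub : (U : Set K3) ⊆ {x : K3 | (onP1 R0)^[B + 1] (some x) = some 0} := by
    intro x hx
    rw [hU, Finset.mem_coe, Finset.mem_image] at hx
    obtain ⟨z, hz, rfl⟩ := hx
    rw [hT, Finset.mem_erase, mem_nthRootsFinset (by positivity)] at hz
    have h1 : mu z = some ((z - 1) / (z + 1)) := by simp [mu, hz.1]
    change (onP1 R0)^[B + 1] (some ((z - 1) / (z + 1))) = some 0
    rw [← h1, onP1_mu_iter, hz.2, mu_one]
  have hcardU : U.card = T.card := by
    apply Finset.card_image_of_injOn
    intro z hz w hw h
    rw [Finset.mem_coe, hT, Finset.mem_erase] at hz hw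
    have hz' : z + 1 ≠ 0 := fun h => hz.1 (eq_neg_of_add_eq_zero_left h)
    have hw' : w + 1 ≠ 0 := fun h => hw.1 (eq_neg_of_add_eq_zero_left h)
    have h' : (z - 1) / (z + 1) = (w - 1) / (w + 1) := h
    rw [div_eq_div_iff hz' hw'] at h'
    apply mul_left_cancel₀ two_ne'
    linear_combination h'
  have hcardT : 2 ^ (B + 1) - 1 ≤ T.card := by
    have h := Finset.pred_card_le_card_erase (s := nthRootsFinset (2 ^ (B + 1)) (1 : K3)) (a := -1)
    rw [hζ.card_nthRootsFinset] at h
    exact h
  have h1 := (Set.encard_le_encard hsub).trans (hB (B + 1))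
  rw [Set.encard_coe_eq_coe_finsetCard] at h1
  have h2 : U.card ≤ B := by exact_mod_cast h1
  have h3 : B + 1 < 2 ^ (B + 1) := Nat.lt_two_pow_self
  omega

lemma transform_smul_X (c : ZMod 3) (hc : c ≠ 0) :
    transform R0 (C c * X) = C (c * 2) * X := by
  have h1 : (C c * X : (ZMod 3)[X]).natDegree = 1 := natDegree_C_mul_X c hc
  unfold transform
  rw [h1, Finset.sum_range_succ, Finset.sum_range_one, num0, den0]
  simp [C_mul, mul_assoc]

lemma iter_X (n : ℕ) : ∃ c : ZMod 3, c ≠ 0 ∧ (transform R0)^[n] X = C c * X := by
  induction n with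
  | zero => exact ⟨1, one_ne_zero, by simp⟩
  | succ n ih =>
    obtain ⟨c, hc, h⟩ := ih
    refine ⟨c * 2, mul_ne_zero hc two_ne, ?_⟩
    rw [Function.iterate_succ_apply', h, transform_smul_X c hc]

lemma factors_X (n : ℕ) : factors R0 X n = {X} := by
  obtain ⟨c, hc, h⟩ := iter_X n
  ext p
  change (p.Monic ∧ Irreducible p ∧ p ∣ (transform R0)^[n] X) ↔ _
  rw [h, Set.mem_singleton_iff]
  constructor
  · rintro ⟨hm, hirr, hdvd⟩
    have h1 : p ∣ X := by
      have hu : IsUnit (C c : (ZMod 3)[X]) := isUnit_C.mpr (isUnit_iff_ne_zero.mpr hc)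
      exact hu.dvd_mul_left.mp hdvd
    have h2 : Associated p X := hirr.associated_of_dvd irreducible_X h1
    exact eq_of_monic_of_associated hm monic_X h2
  · rintro rfl
    exact ⟨monic_X, irreducible_X, dvd_mul_left _ _⟩

lemma avg_X (n : ℕ) : avg R0 X n = 1 := by
  unfold avg delta
  rw [factors_X, finsum_mem_singleton, Set.ncard_singleton]
  simp

end Example

/-- `A_{f,R}(n) ≫ n`: there is `c > 0` with `c * A_{f,R}(n) ≥ n` for all large `n`. -/
def LinearGrowth {F : Type*} [Field F] (R : RatFunc F) (f : F[X]) : Prop :=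
  ∃ c : ℝ, 0 < c ∧ ∀ᶠ n : ℕ in atTop, (n : ℝ) ≤ c * avg R f n

/-- **Linear growth of the average degree.** Let `F` be a finite field, `R ∈ F(x)` of degree at
least one and `f ∈ F[x]` of positive degree.

1. If `f` has a root in the algebraic closure that is not `R`-critical and that does not lie in
   the forward orbit `R(∞), R(R(∞)), …` of infinity (for instance a root outside `F`), then
   `A_{f,R}(n) ≫ n`.
2. In all cases `A_{f,R}(n) ≫ n` if and only if `δ_{f,R}(n)` is unbounded.
3. The condition on the orbit of infinity in 1 cannot be dropped: over the field with three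
   elements, for `R = 2 x / (x ^ 2 + 1)` and `f = x`, the root `0` is not `R`-critical, but
   `A_{f,R}(n) = 1` for all `n`. -/
theorem result :
    (∀ (F : Type*) [Field F] [Finite F] (R : RatFunc F) (f : F[X]),
      1 ≤ max R.num.natDegree R.denom.natDegree → 0 < f.natDegree →
      ((∃ α : AlgebraicClosure F, aeval α f = 0 ∧ ¬ Critical R α ∧
        ∀ k : ℕ, 1 ≤ k → (onP1 R)^[k] none ≠ some α) → LinearGrowth R f) ∧
      (LinearGrowth R f ↔ ∀ B : ℕ, ∃ n : ℕ, B < delta R f n)) ∧
    (¬ Critical (2 * RatFunc.X / (RatFunc.X ^ 2 + 1) : RatFunc (ZMod 3)) 0 ∧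
      ∀ n : ℕ, avg (2 * RatFunc.X / (RatFunc.X ^ 2 + 1) : RatFunc (ZMod 3)) X n = 1) := by
  refine ⟨?_, ?_⟩
  · intro F _ _ R f hR hf
    have hf0 : f ≠ 0 := by rintro rfl; simp at hf
    refine ⟨?_, ?_, main_growth R hR hf0⟩
    · rintro ⟨α, hα, hcrit, horb⟩
      apply main_growth R hR hf0
      intro B
      by_contra hc
      push Not at hc
      apply hcrit
      refine ⟨B, fun n => ?_⟩
      have hsub : {x : AlgebraicClosure F | (onP1 R)^[n] (some x) = some α} ⊆
          (rts ((transform R)^[n] f) : Set (AlgebraicClosure F)) :=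
        fun x hx => mem_rts_of_iterate R hR hf0 hα horb n x hx
      refine (Set.encard_le_encard hsub).trans ?_
      rw [Set.encard_coe_eq_coe_finsetCard, ← delta_eq R hR hf0]
      exact_mod_cast hc n
    · rintro ⟨c, hc, h⟩ B
      obtain ⟨n, hn, hn2⟩ := (h.and (eventually_gt_atTop ⌈c * B⌉₊)).exists
      refine ⟨n, ?_⟩
      have h1 : avg R f n ≤ delta R f n := by
        unfold avg
        rcases Nat.eq_zero_or_pos (factors R f n).ncard with h0 | h0
        · rw [h0]; simp
        · apply div_le_self (Nat.cast_nonneg _)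
          exact_mod_cast h0
      have h2 : c * B < n := (Nat.le_ceil _).trans_lt (by exact_mod_cast hn2)
      have h3 : c * B < c * delta R f n := by
        calc c * B < n := h2
          _ ≤ c * avg R f n := hn
          _ ≤ c * delta R f n := mul_le_mul_of_nonneg_left h1 hc.le
      exact_mod_cast lt_of_mul_lt_mul_left h3 hc.le
  · rw [← R0_eq]
    exact ⟨not_critical, avg_X⟩

end Pool.Agent.Results.MP_fa793f_nt.AverageDegree
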